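import Mathlib
import Pool.Agent.Lib.MP_b30d95_gt.Geometry

/-!
Zong's ball-and-cube conjecture, in every dimension.
-/

namespace Pool.Agent.Results.MP_b30d95_gt.BallCube

open scoped RealInnerProductSpace
open Pool.Agent.Lib.MP_b30d95_gt

/-- `F` is a facet of `P ⊆ ℝ^d`: a nonempty exposed face of `P` (the set of all maximisers in `P`
of some linear functional) whose affine hull has dimension `d - 1`. -/
def IsFacet {d : ℕ} (P F : Set (EuclideanSpace ℝ (Fin d))) : Prop :=
  IsExposed ℝ P F ∧ F.Nonempty ∧ Module.finrank ℝ (vectorSpan ℝ F) + 1 = d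

/-- The cube `C_d = [-1, 1]^d`. -/
def cube (d : ℕ) : Set (EuclideanSpace ℝ (Fin d)) := {x | ∀ i, |x i| ≤ 1}

/-- Let `P ⊆ ℝ^d` be a convex polytope (the convex hull of a finite set) with exactly `2 d` facets
that contains the closed unit ball. Then the largest norm `σ` of a point of `P` is at least `√d`,
with equality exactly when `P` is the image of the cube under an isometry of `ℝ^d`. -/
theorem result (d : ℕ) (hd : 1 ≤ d) (P : Set (EuclideanSpace ℝ (Fin d)))
    (hpoly : ∃ S : Finset (EuclideanSpace ℝ (Fin d)), P = convexHull ℝ (S : Set _))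
    (hfacets : {F | IsFacet P F}.ncard = 2 * d)
    (hball : Metric.closedBall 0 1 ⊆ P) :
    ∃ σ : ℝ, IsGreatest ((fun x => ‖x‖) '' P) σ ∧ √(d : ℝ) ≤ σ ∧
      (σ = √(d : ℝ) ↔
        ∃ φ : EuclideanSpace ℝ (Fin d) ≃ᵢ EuclideanSpace ℝ (Fin d), P = φ '' cube d) := by
  classical
  obtain ⟨S, rfl⟩ := hpoly
  set P := convexHull ℝ (S : Set (EuclideanSpace ℝ (Fin d))) with hP
  have hcomp : IsCompact P := S.finite_toSet.isCompact_convexHull ℝ
  obtain ⟨x₀, hx₀, hmax⟩ := hcomp.exists_isMaxOn ⟨0, hball (by simp)⟩ continuous_norm.continuousOn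
  have hfin : {F | IsFacet P F}.Finite := Set.finite_of_ncard_pos (by omega)
  have := hfin.fintype
  obtain ⟨a, ha, hPa⟩ := facet_inequalities _ S.finite_toSet hball
  have hcard : Fintype.card {F | IsFacet P F} = 2 * d := by
    rw [← hfacets, Set.fintypeCard_eq_ncard]
  have hPa' : ∀ x, x ∈ P ↔ ∀ F : {F | IsFacet P F}, ⟪a F, x⟫ ≤ 1 := fun x =>
    (hPa x).trans ⟨fun h F => h F F.2, fun h F hF => h ⟨F, hF⟩⟩
  obtain ⟨hle, heq⟩ := halfspace_form hd hcard (fun F : {F | IsFacet P F} => a F)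
    (fun F => ha F) ‖x₀‖ fun x hx => hmax ((hPa' x).2 hx)
  refine ⟨‖x₀‖, ⟨⟨x₀, hx₀, rfl⟩, ?_⟩, hle, fun h => ?_, ?_⟩
  · rintro _ ⟨x, hx, rfl⟩
    exact hmax hx
  · obtain ⟨φ, hφ⟩ := heq h
    refine ⟨φ.symm.toIsometryEquiv, ?_⟩
    ext x
    rw [hPa', hφ]
    exact ⟨fun hx => ⟨φ x, hx, by simp⟩, by rintro ⟨y, hy, rfl⟩; simpa [cube] using hy⟩
  · rintro ⟨φ, hφ⟩
    have hc : φ.symm 0 = 0 := by
      have key : ∀ y, dist y (φ.symm 0) ≤ 1 → y ∈ cube d := by
        intro y hy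
        have h1 : φ y ∈ P := hball (by
          rw [Metric.mem_closedBall, ← φ.apply_symm_apply 0, φ.dist_eq]; exact hy)
        rw [hφ] at h1
        obtain ⟨z, hz, hzy⟩ := h1
        rwa [← φ.injective hzy]
      ext i
      have h1 := key (φ.symm 0 + EuclideanSpace.single i 1) (by simp) i
      have h2 := key (φ.symm 0 - EuclideanSpace.single i 1) (by simp) i
      simp only [PiLp.add_apply, PiLp.sub_apply, PiLp.single_apply, if_true] at h1 h2
      have := (abs_le.1 h1).2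
      have := (abs_le.1 h2).1
      simp only [PiLp.zero_apply]
      linarith
    have h0 : φ 0 = 0 := by rw [← hc, φ.apply_symm_apply, hc]
    refine le_antisymm ?_ hle
    rw [hφ] at hx₀
    obtain ⟨y, hy, rfl⟩ := hx₀
    rw [← dist_zero_right, ← h0, φ.dist_eq, dist_zero_right, EuclideanSpace.norm_eq]
    apply Real.sqrt_le_sqrt
    calc ∑ i, ‖y i‖ ^ 2 ≤ ∑ _i : Fin d, (1 : ℝ) :=
          Finset.sum_le_sum fun i _ => pow_le_one₀ (norm_nonneg _) (hy i)
      _ = d := by simp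

end Pool.Agent.Results.MP_b30d95_gt.BallCube
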